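import Pool.Agent.H31.LV.Basic
import Pool.Agent.H31.LV.Targets

/-!
# One sum near a rational point (row wER of the board `lvp_modules`, helper82)
-/

set_option autoImplicit false

open Finset MeasureTheory

namespace Pool.Agent.H82.LVP

open Pool.Agent.H24.CL Pool.Agent.H24.LV Pool.Agent.H31.LV

/-- one block -/
theorem block (q s : ℕ) (hq : 1 ≤ q) (a : ℕ → ℂ) (ha : ∀ n, ‖a n‖ ≤ 1) (b : ℝ → ℂ)
    (hb : Continuous b) (L : ℝ) (hL : 0 ≤ L)
    (hLip : ∀ x y : ℝ, (s : ℝ) ≤ x → x ≤ s + q → (s : ℝ) ≤ y → y ≤ s + q →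
      ‖b x - b y‖ ≤ L * |x - y|) :
    ‖(∑ r ∈ range q, a r * b (s + r)) - ((1 / (q : ℂ)) * ∑ r ∈ range q, a r) *
      ∫ x in (s : ℝ)..(s + q), b x‖ ≤ q * (q * L) := by
  have hq0 : (0 : ℝ) < q := by exact_mod_cast hq
  have hqc : (q : ℂ) ≠ 0 := by exact_mod_cast hq0.ne'
  have h1 : (∑ r ∈ range q, a r * b (s + r)) - ((1 / (q : ℂ)) * ∑ r ∈ range q, a r) *
      (∫ x in (s : ℝ)..(s + q), b x) =
      ∑ r ∈ range q, a r * (b (s + r) - (1 / (q : ℂ)) * ∫ x in (s : ℝ)..(s + q), b x) := by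
    simp only [mul_sub]
    rw [Finset.sum_sub_distrib]
    congr 1
    rw [← Finset.sum_mul]
    ring
  rw [h1]
  have h2 : ∀ r ∈ range q, ‖a r * (b (s + r) - (1 / (q : ℂ)) *
      ∫ x in (s : ℝ)..(s + q), b x)‖ ≤ q * L := by
    intro r hr
    have hr' : (r : ℝ) ≤ q := by exact_mod_cast (Finset.mem_range.mp hr).le
    rw [norm_mul]
    have h3 : b (s + r) - (1 / (q : ℂ)) * (∫ x in (s : ℝ)..(s + q), b x) =
        (1 / (q : ℂ)) * ∫ x in (s : ℝ)..(s + q), (b (s + r) - b x) := by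
      rw [intervalIntegral.integral_sub intervalIntegrable_const (hb.intervalIntegrable _ _),
        intervalIntegral.integral_const, add_sub_cancel_left, mul_sub]
      congr 1
      rw [Complex.real_smul]
      push_cast
      field_simp
    have h4 : ‖b (s + r) - (1 / (q : ℂ)) * (∫ x in (s : ℝ)..(s + q), b x)‖ ≤ q * L := by
      rw [h3, norm_mul, norm_div, norm_one, Complex.norm_natCast]
      have h5 : ‖∫ x in (s : ℝ)..(s + q), (b (s + r) - b x)‖ ≤ (L * q) * |(s : ℝ) + q - s| := by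
        apply intervalIntegral.norm_integral_le_of_norm_le_const
        intro x hx
        rw [Set.uIoc_of_le (by linarith)] at hx
        have hr0 : (0 : ℝ) ≤ r := Nat.cast_nonneg r
        refine (hLip _ _ (by linarith) (by linarith) hx.1.le hx.2).trans
          (mul_le_mul_of_nonneg_left ?_ hL)
        rw [abs_le]
        constructor <;> linarith [hx.1, hx.2]
      rw [add_sub_cancel_left, abs_of_pos hq0] at h5
      calc 1 / (q : ℝ) * ‖∫ x in (s : ℝ)..(s + q), (b (s + r) - b x)‖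
          ≤ 1 / (q : ℝ) * ((L * q) * q) := mul_le_mul_of_nonneg_left h5 (by positivity)
        _ = q * L := by field_simp
    calc ‖a r‖ * _ ≤ 1 * (q * L) := mul_le_mul (ha r) h4 (norm_nonneg _) zero_le_one
      _ = q * L := one_mul _
  calc _ ≤ ∑ r ∈ range q, ‖a r * (b (s + r) - (1 / (q : ℂ)) *
        ∫ x in (s : ℝ)..(s + q), b x)‖ := norm_sum_le _ _
    _ ≤ ∑ r ∈ range q, (q * L : ℝ) := Finset.sum_le_sum h2
    _ = q * (q * L) := by rw [Finset.sum_const, Finset.card_range, nsmul_eq_mul]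

theorem per (q : ℕ) (a : ℕ → ℂ) (hper : ∀ n, a (n + q) = a n) (m r : ℕ) :
    a (q * m + r) = a r := by
  induction m with
  | zero => simp
  | succ m ih =>
    rw [← ih, ← hper (q * m + r)]
    congr 1
    ring

/-- many blocks -/
theorem blocks (q N : ℕ) (hq : 1 ≤ q) (a : ℕ → ℂ) (ha : ∀ n, ‖a n‖ ≤ 1)
    (hper : ∀ n, a (n + q) = a n) (b : ℝ → ℂ)
    (hb : Continuous b) (L : ℝ) (hL : 0 ≤ L)
    (hLip : ∀ x y : ℝ, 0 ≤ x → x ≤ N → 0 ≤ y → y ≤ N → ‖b x - b y‖ ≤ L * |x - y|) (m : ℕ)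
    (hm : q * m ≤ N) :
    ‖(∑ n ∈ range (q * m), a n * b n) - ((1 / (q : ℂ)) * ∑ r ∈ range q, a r) *
      ∫ x in (0 : ℝ)..((q * m : ℕ) : ℝ), b x‖ ≤ m * (q * (q * L)) := by
  induction m with
  | zero => simp
  | succ m ih =>
    have hm' : q * m ≤ N := by
      have : q * m ≤ q * (m + 1) := Nat.mul_le_mul_left q (Nat.le_succ m)
      omega
    have ih' := ih hm'
    have hmul : q * (m + 1) = q * m + q := by ring
    rw [hmul] at hm ⊢
    have hmR : ((q * m : ℕ) : ℝ) + q ≤ N := by exact_mod_cast hm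
    have hb' := block q (q * m) hq a ha b hb L hL (by
      intro x y hx1 hx2 hy1 hy2
      have h0 : (0 : ℝ) ≤ ((q * m : ℕ) : ℝ) := Nat.cast_nonneg _
      exact hLip x y (by linarith) (by linarith) (by linarith) (by linarith))
    rw [Finset.sum_range_add]
    have e1 : ∀ r ∈ range q, a (q * m + r) * b ((q * m + r : ℕ) : ℝ) =
        a r * b (((q * m : ℕ) : ℝ) + r) := by
      intro r _
      rw [per q a hper, Nat.cast_add]
    rw [Finset.sum_congr rfl e1]
    have e2 : (∫ x in (0 : ℝ)..((q * m + q : ℕ) : ℝ), b x) =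
        (∫ x in (0 : ℝ)..((q * m : ℕ) : ℝ), b x) +
        ∫ x in ((q * m : ℕ) : ℝ)..(((q * m : ℕ) : ℝ) + q), b x := by
      rw [intervalIntegral.integral_add_adjacent_intervals (hb.intervalIntegrable _ _)
        (hb.intervalIntegrable _ _), Nat.cast_add]
    rw [e2]
    have e3 : ∀ S1 S2 A I1 I2 : ℂ, (S1 + S2) - A * (I1 + I2) = (S1 - A * I1) + (S2 - A * I2) := by
      intro S1 S2 A I1 I2
      ring
    rw [e3]
    refine (norm_add_le _ _).trans ?_
    refine (add_le_add ih' hb').trans ?_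
    push_cast
    linarith

/-- a periodic factor and a Lipschitz factor -/
theorem perlip (q N : ℕ) (hq : 1 ≤ q) (a : ℕ → ℂ) (ha : ∀ n, ‖a n‖ ≤ 1)
    (hper : ∀ n, a (n + q) = a n) (b : ℝ → ℂ) (hb : Continuous b) (hb1 : ∀ x, ‖b x‖ ≤ 1)
    (L : ℝ) (hL : 0 ≤ L)
    (hLip : ∀ x y : ℝ, 0 ≤ x → x ≤ N → 0 ≤ y → y ≤ N → ‖b x - b y‖ ≤ L * |x - y|) :
    ‖(∑ n ∈ range N, a n * b n) - ((1 / (q : ℂ)) * ∑ r ∈ range q, a r) *
      ∫ x in (0 : ℝ)..(N : ℝ), b x‖ ≤ N * (q * L) + 2 * q := by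
  have hq0 : (0 : ℝ) < q := by exact_mod_cast hq
  have hdm := Nat.div_add_mod N q
  set m := N / q with hm
  set ρ := N % q with hρ
  have hρq : ρ < q := Nat.mod_lt _ hq
  have hle : q * m ≤ N := by omega
  have h1 := blocks q N hq a ha hper b hb L hL hLip m hle
  have hA : ‖(1 / (q : ℂ)) * ∑ r ∈ range q, a r‖ ≤ 1 := by
    rw [norm_mul, norm_div, norm_one, Complex.norm_natCast]
    have h2 : ‖∑ r ∈ range q, a r‖ ≤ q := by
      refine (norm_sum_le _ _).trans ?_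
      refine (Finset.sum_le_sum (fun r _ => ha r)).trans ?_
      rw [Finset.sum_const, Finset.card_range, nsmul_eq_mul, mul_one]
    calc 1 / (q : ℝ) * ‖∑ r ∈ range q, a r‖ ≤ 1 / (q : ℝ) * q :=
          mul_le_mul_of_nonneg_left h2 (by positivity)
      _ = 1 := by field_simp
  have hN : N = q * m + ρ := hdm.symm
  have e1 : (∑ n ∈ range N, a n * b n) = (∑ n ∈ range (q * m), a n * b n) +
      ∑ r ∈ range ρ, a (q * m + r) * b ((q * m + r : ℕ) : ℝ) := by
    conv_lhs => rw [hN]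
    rw [Finset.sum_range_add]
  have e2 : (∫ x in (0 : ℝ)..(N : ℝ), b x) = (∫ x in (0 : ℝ)..((q * m : ℕ) : ℝ), b x) +
        ∫ x in ((q * m : ℕ) : ℝ)..(N : ℝ), b x :=
    (intervalIntegral.integral_add_adjacent_intervals (hb.intervalIntegrable _ _)
        (hb.intervalIntegrable _ _)).symm
  rw [e1, e2]
  have e3 : ∀ S1 S2 A I1 I2 : ℂ, (S1 + S2) - A * (I1 + I2) = (S1 - A * I1) + (S2 - A * I2) := by
    intro S1 S2 A I1 I2
    ring
  rw [e3]
  refine (norm_add_le _ _).trans ?_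
  have h3 : ‖∑ r ∈ range ρ, a (q * m + r) * b ((q * m + r : ℕ) : ℝ)‖ ≤ q := by
    refine (norm_sum_le _ _).trans ?_
    have h4 : ∀ r ∈ range ρ, ‖a (q * m + r) * b ((q * m + r : ℕ) : ℝ)‖ ≤ 1 := by
      intro r _
      rw [norm_mul]
      exact mul_le_one₀ (ha _) (norm_nonneg _) (hb1 _)
    refine (Finset.sum_le_sum h4).trans ?_
    rw [Finset.sum_const, Finset.card_range, nsmul_eq_mul, mul_one]
    exact_mod_cast hρq.le
  have h5 : ‖∫ x in ((q * m : ℕ) : ℝ)..(N : ℝ), b x‖ ≤ q := by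
    have h6 := intervalIntegral.norm_integral_le_of_norm_le_const (a := ((q * m : ℕ) : ℝ))
      (b := (N : ℝ)) (C := 1) (f := b) (fun x _ => hb1 x)
    refine h6.trans ?_
    have h7 : (N : ℝ) - ((q * m : ℕ) : ℝ) = ρ := by
      conv_lhs => rw [hN]
      push_cast
      ring
    rw [h7, one_mul, Nat.abs_cast]
    exact_mod_cast hρq.le
  have h8 : ‖(∑ r ∈ range ρ, a (q * m + r) * b ((q * m + r : ℕ) : ℝ)) -
      ((1 / (q : ℂ)) * ∑ r ∈ range q, a r) * ∫ x in ((q * m : ℕ) : ℝ)..(N : ℝ), b x‖ ≤ 2 * q := by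
    refine (norm_sub_le _ _).trans ?_
    rw [norm_mul]
    have h9 := mul_le_mul hA h5 (norm_nonneg _) zero_le_one
    linarith
  have h10 : (m : ℝ) * (q * (q * L)) ≤ N * (q * L) := by
    have h11 : (m : ℝ) * q ≤ N := by
      have : ((q * m : ℕ) : ℝ) ≤ N := by exact_mod_cast hle
      push_cast at this
      linarith
    calc (m : ℝ) * (q * (q * L)) = (m * q) * (q * L) := by ring
      _ ≤ N * (q * L) := mul_le_mul_of_nonneg_right h11 (by positivity)
  linarith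

/-- the term `i = 0` of a sum -/
theorem split0 {k : ℕ} (hk : 1 ≤ k) (g : Fin k → ℝ) :
    ∑ i : Fin k, g i = g ⟨0, hk⟩ + ∑ i : Fin k, (if i.val = 0 then 0 else g i) := by
  have h1 : ∀ i : Fin k, g i = (if i = (⟨0, hk⟩ : Fin k) then g i else 0) +
      (if i.val = 0 then 0 else g i) := by
    intro i
    by_cases h : i.val = 0
    · have : i = (⟨0, hk⟩ : Fin k) := Fin.ext h
      simp [this]
    · have : i ≠ (⟨0, hk⟩ : Fin k) := fun h' => h (congrArg Fin.val h')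
      simp [this, h]
  rw [Finset.sum_congr rfl (fun i _ => h1 i), Finset.sum_add_distrib, Finset.sum_ite_eq']
  simp

theorem Ps_lip {k : ℕ} (N : ℕ) (hN : 1 ≤ N) (R : ℝ) (hR : 0 ≤ R) (η : Fin k → ℝ)
    (hη : ∀ i : Fin k, |η i| ≤ R / (N : ℝ) ^ (i.val + 1)) (x y : ℝ) (hx0 : 0 ≤ x) (hx : x ≤ N)
    (hy0 : 0 ≤ y) (hy : y ≤ N) (g : Fin k → ℝ) (hg : ∀ i, g i = η i ∨ g i = 0) :
    |(∑ i : Fin k, g i * x ^ (i.val + 1)) - ∑ i : Fin k, g i * y ^ (i.val + 1)| ≤
      (k : ℝ) ^ 2 * R / N * |x - y| := by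
  have hN0 : (0 : ℝ) < N := by exact_mod_cast hN
  rw [← Finset.sum_sub_distrib]
  have h1 : ∀ i ∈ (Finset.univ : Finset (Fin k)), |g i * x ^ (i.val + 1) - g i * y ^ (i.val + 1)| ≤
      (k : ℝ) * R / N * |x - y| := by
    intro i _
    rw [← mul_sub, abs_mul]
    have hgi : |g i| ≤ R / (N : ℝ) ^ (i.val + 1) := by
      rcases hg i with h | h
      · rw [h]
        exact hη i
      · rw [h, abs_zero]
        positivity
    have h2 : |x ^ (i.val + 1) - y ^ (i.val + 1)| ≤ |x - y| * (i.val + 1 : ℕ) * (N : ℝ) ^ i.val := by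
      refine (abs_pow_sub_pow_le x y (i.val + 1)).trans ?_
      rw [Nat.add_sub_cancel]
      refine mul_le_mul_of_nonneg_left ?_ (by positivity)
      refine pow_le_pow_left₀ (by positivity) (max_le ?_ ?_) _
      · rwa [abs_of_nonneg hx0]
      · rwa [abs_of_nonneg hy0]
    have h3 : ((i.val + 1 : ℕ) : ℝ) ≤ k := by exact_mod_cast i.isLt
    calc |g i| * |x ^ (i.val + 1) - y ^ (i.val + 1)|
        ≤ R / (N : ℝ) ^ (i.val + 1) * (|x - y| * (i.val + 1 : ℕ) * (N : ℝ) ^ i.val) :=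
          mul_le_mul hgi h2 (abs_nonneg _) (by positivity)
      _ = ((i.val + 1 : ℕ) : ℝ) * (R / N * |x - y|) := by
          rw [pow_succ]
          field_simp
      _ ≤ (k : ℝ) * (R / N * |x - y|) := mul_le_mul_of_nonneg_right h3 (by positivity)
      _ = (k : ℝ) * R / N * |x - y| := by ring
  refine (Finset.abs_sum_le_sum_abs _ _).trans ((Finset.sum_le_sum h1).trans ?_)
  rw [Finset.sum_const, Finset.card_univ, Fintype.card_fin, nsmul_eq_mul]
  apply le_of_eq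
  ring

theorem Fz_mod {k : ℕ} (f : Fin k → ℤ) (q : ℤ) (z : ℤ) : q ∣ Fz f (z + q) - Fz f z := by
  unfold Fz
  rw [← Finset.sum_sub_distrib]
  apply Finset.dvd_sum
  intro i _
  split_ifs
  · simp
  · rw [← mul_sub]
    apply Dvd.dvd.mul_left
    have := sub_dvd_pow_sub_pow (z + q) z (i.val + 1)
    rwa [add_sub_cancel_left] at this

/-- Row wER. -/
theorem pf_wER (hPV : W_PV) : W_ER := by
  intro k hk
  refine ⟨2 * (2 * Real.pi * (k : ℝ) ^ 2 + 2), ?_, ?_⟩
  · have := Real.pi_pos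
    have h2 : 0 ≤ 2 * Real.pi * (k : ℝ) ^ 2 := by positivity
    linarith
  intro q N f η w R hq hN hR hw hη
  have hq0 : (0 : ℝ) < q := by exact_mod_cast hq
  have hqc : (q : ℂ) ≠ 0 := by exact_mod_cast hq0.ne'
  have hN0 : (0 : ℝ) < N := by exact_mod_cast hN
  have hNc : (N : ℂ) ≠ 0 := by exact_mod_cast hN0.ne'
  set i0 : Fin k := ⟨0, hk⟩ with hi0
  have hi0' : ∀ i : Fin k, i.val = 0 → i = i0 := fun i hi => Fin.ext hi
  refine ⟨(f i0 : ℝ) / q + η i0, fun i hi => ?_, ?_⟩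
  · rw [hi0' i hi]
    exact hw i0
  -- the lift
  set c : ℕ → ℝ := fun i => if h : i < k then (f ⟨i, h⟩ : ℝ) / q + η ⟨i, h⟩ else 0 with hc
  have hlft : Lft w c := by
    intro i
    rw [hw i, hc]
    simp only [i.isLt, dite_true]
  have hpl : ∀ n : ℕ, pl k c n = ((f i0 * n + Fz f n : ℤ) : ℝ) / q +
      (η i0 * n + Ps η n) := by
    intro n
    unfold pl
    rw [← Fin.sum_univ_eq_sum_range (fun i => c i * (n : ℝ) ^ (i + 1)) k]
    have h1 : ∀ i : Fin k, c i.val * (n : ℝ) ^ (i.val + 1) =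
        ((f i : ℝ) * (n : ℝ) ^ (i.val + 1)) / q + η i * (n : ℝ) ^ (i.val + 1) := by
      intro i
      rw [hc]
      simp only [i.isLt, dite_true]
      ring
    rw [Finset.sum_congr rfl (fun i _ => h1 i), Finset.sum_add_distrib, ← Finset.sum_div,
      split0 hk (fun i => (f i : ℝ) * (n : ℝ) ^ (i.val + 1)),
      split0 hk (fun i => η i * (n : ℝ) ^ (i.val + 1))]
    congr 1
    · congr 1
      unfold Fz
      push_cast
      simp [hi0]
    · unfold Ps
      simp [hi0]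
  set a : ℕ → ℂ := fun n => ee (((f i0 * n + Fz f n : ℤ) : ℝ) / q) with ha
  set b : ℝ → ℂ := fun x => ee (η i0 * x + Ps η x) with hbdef
  have hbc : Continuous b := by
    refine continuous_ee.comp ?_
    refine (continuous_const.mul continuous_id).add ?_
    unfold Ps
    refine continuous_finsetSum _ (fun i _ => ?_)
    split_ifs
    · exact continuous_const
    · fun_prop
  have hb1 : ∀ x, ‖b x‖ ≤ 1 := fun x => (norm_ee _).le
  have ha1 : ∀ n, ‖a n‖ ≤ 1 := fun n => (norm_ee _).le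
  have hper : ∀ n, a (n + q) = a n := by
    intro n
    obtain ⟨t, ht⟩ := Fz_mod f q n
    refine ee_congr _ _ (f i0 + t) ?_
    have h1 : ((Fz f ((n + q : ℕ) : ℤ) : ℤ) : ℝ) = (Fz f n : ℝ) + q * t := by
      have : Fz f ((n + q : ℕ) : ℤ) = Fz f n + q * t := by
        push_cast
        linarith
      rw [this]
      push_cast
      ring
    rw [← sub_div, div_eq_iff hq0.ne']
    push_cast at h1 ⊢
    rw [h1]
    ring
  set L : ℝ := 2 * Real.pi * ((k : ℝ) ^ 2 * R / N) with hL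
  have hpi := Real.pi_pos
  have hL0 : 0 ≤ L := by positivity
  have hfull : ∀ x : ℝ, η i0 * x + Ps η x = ∑ i : Fin k, η i * x ^ (i.val + 1) := by
    intro x
    rw [split0 hk (fun i => η i * x ^ (i.val + 1))]
    unfold Ps
    simp [hi0]
  have hLip : ∀ x y : ℝ, 0 ≤ x → x ≤ N → 0 ≤ y → y ≤ N → ‖b x - b y‖ ≤ L * |x - y| := by
    intro x y hx0 hx hy0 hy
    refine (norm_ee_sub _ _).trans ?_
    rw [hfull, hfull]
    have h1 := Ps_lip N hN R (by linarith) η hη x y hx0 hx hy0 hy η (fun i => Or.inl rfl)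
    calc _ ≤ 2 * Real.pi * ((k : ℝ) ^ 2 * R / N * |x - y|) :=
          mul_le_mul_of_nonneg_left h1 (by positivity)
      _ = L * |x - y| := by rw [hL]; ring
  have hmain := perlip q N hq a ha1 hper b hbc hb1 L hL0 hLip
  have hu : u N w = (1 / (N : ℂ)) * ∑ n ∈ range N, a n * b n := by
    rw [u_eq hlft]
    congr 1
    apply Finset.sum_congr rfl
    intro n _
    rw [hpl n, ee_add]
  set A : ℂ := (1 / (q : ℂ)) * ∑ r ∈ range q, a r with hA
  set B : ℂ := (1 / (N : ℂ)) * ∫ x in (0 : ℝ)..(N : ℝ), b x with hB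
  have hdiff : ‖u N w - A * B‖ ≤ (2 * Real.pi * (k : ℝ) ^ 2 + 2) * q * R / N := by
    have h1 : u N w - A * B = (1 / (N : ℂ)) * ((∑ n ∈ range N, a n * b n) -
        A * ∫ x in (0 : ℝ)..(N : ℝ), b x) := by
      rw [hu, hB]
      ring
    rw [h1, norm_mul, norm_div, norm_one, Complex.norm_natCast]
    calc 1 / (N : ℝ) * _ ≤ 1 / (N : ℝ) * (N * (q * L) + 2 * q) :=
          mul_le_mul_of_nonneg_left hmain (by positivity)
      _ = (2 * Real.pi * (k : ℝ) ^ 2 * q * R + 2 * q) / N := by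
          rw [hL]
          field_simp
      _ ≤ (2 * Real.pi * (k : ℝ) ^ 2 + 2) * q * R / N := by
          refine div_le_div_of_nonneg_right ?_ hN0.le
          have h2 : 2 * (q : ℝ) ≤ 2 * q * R := le_mul_of_one_le_right (by positivity) hR
          linarith
  have hA1 : ‖A‖ ≤ 1 := by
    rw [hA, norm_mul, norm_div, norm_one, Complex.norm_natCast]
    have h2 : ‖∑ r ∈ range q, a r‖ ≤ q := by
      refine (norm_sum_le _ _).trans ?_
      refine (Finset.sum_le_sum (fun r _ => ha1 r)).trans ?_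
      rw [Finset.sum_const, Finset.card_range, nsmul_eq_mul, mul_one]
    calc 1 / (q : ℝ) * ‖∑ r ∈ range q, a r‖ ≤ 1 / (q : ℝ) * q :=
          mul_le_mul_of_nonneg_left h2 (by positivity)
      _ = 1 := by field_simp
  have hB1 : ‖B‖ ≤ 1 := by
    rw [hB, norm_mul, norm_div, norm_one, Complex.norm_natCast]
    have h2 := intervalIntegral.norm_integral_le_of_norm_le_const (a := (0 : ℝ))
      (b := (N : ℝ)) (C := 1) (f := b) (fun x _ => hb1 x)
    rw [sub_zero, one_mul, Nat.abs_cast] at h2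
    calc 1 / (N : ℝ) * _ ≤ 1 / (N : ℝ) * N := mul_le_mul_of_nonneg_left h2 (by positivity)
      _ = 1 := by field_simp
  have hu1 : ‖u N w‖ ≤ 1 := by
    rw [hu, norm_mul, norm_div, norm_one, Complex.norm_natCast]
    have h2 : ‖∑ n ∈ range N, a n * b n‖ ≤ N := by
      refine (norm_sum_le _ _).trans ?_
      refine (Finset.sum_le_sum (fun n _ => (norm_mul (a n) (b n)).le.trans
        (mul_le_one₀ (ha1 n) (norm_nonneg _) (hb1 _)))).trans ?_
      rw [Finset.sum_const, Finset.card_range, nsmul_eq_mul, mul_one]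
    calc 1 / (N : ℝ) * _ ≤ 1 / (N : ℝ) * N := mul_le_mul_of_nonneg_left h2 (by positivity)
      _ = 1 := by field_simp
  have hAB1 : ‖A * B‖ ≤ 1 := by
    rw [norm_mul]
    exact mul_le_one₀ hA1 (norm_nonneg _) hB1
  have hsq : ‖u N w‖ ^ 2 ≤ ‖A‖ ^ 2 * ‖B‖ ^ 2 + 2 * ((2 * Real.pi * (k : ℝ) ^ 2 + 2) * q * R / N) := by
    have h1 : ‖u N w‖ ≤ ‖A * B‖ + ‖u N w - A * B‖ := by
      have := norm_add_le (A * B) (u N w - A * B)
      rwa [add_sub_cancel] at this
    have h2 : ‖A‖ ^ 2 * ‖B‖ ^ 2 = ‖A * B‖ ^ 2 := by rw [norm_mul A B, mul_pow]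
    rw [h2]
    have h3 := norm_nonneg (u N w)
    have h4 := norm_nonneg (A * B)
    have h5 := norm_nonneg (u N w - A * B)
    have h6 : ‖u N w‖ ^ 2 - ‖A * B‖ ^ 2 = (‖u N w‖ - ‖A * B‖) * (‖u N w‖ + ‖A * B‖) := by ring
    have h7 : (‖u N w‖ - ‖A * B‖) * (‖u N w‖ + ‖A * B‖) ≤
        ‖u N w - A * B‖ * (‖u N w‖ + ‖A * B‖) :=
      mul_le_mul_of_nonneg_right (by linarith) (by linarith)
    have h8 : ‖u N w - A * B‖ * (‖u N w‖ + ‖A * B‖) ≤ ‖u N w - A * B‖ * 2 :=
      mul_le_mul_of_nonneg_left (by linarith) h5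
    linarith
  -- the two factors
  obtain ⟨l, hl, n0, hn0⟩ : ∃ l : ℕ, l < q ∧ ∃ n0 : ℤ, (l : ℤ) = -f i0 + q * n0 := by
    have hqz : (q : ℤ) ≠ 0 := by exact_mod_cast (by omega : q ≠ 0)
    have h1 := Int.emod_nonneg (-f i0) hqz
    have h2 := Int.emod_lt_of_pos (-f i0) (by exact_mod_cast hq : (0 : ℤ) < q)
    refine ⟨(-f i0 % q).toNat, ?_, -(-f i0 / q), ?_⟩
    · zify
      rw [Int.toNat_of_nonneg h1]
      exact h2
    · rw [Int.toNat_of_nonneg h1]
      have h3 := Int.emod_add_mul_ediv (-f i0) q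
      linarith
  have hn0R : (l : ℝ) = -(f i0 : ℝ) + q * n0 := by exact_mod_cast hn0
  have hAl : ‖A‖ ^ 2 = Al q f (l : ℤ) := by
    rw [Al_eq, hA]
    congr 3
    apply Finset.sum_congr rfl
    intro z _
    refine ee_congr _ _ (n0 * z) ?_
    rw [← sub_div, div_eq_iff hq0.ne']
    push_cast
    rw [hn0R]
    ring
  have hgI : ‖B‖ ^ 2 = gI (N : ℝ) η 0 (η i0) := by
    rw [gI_eq, hB, zero_add]
    push_cast
    rfl
  rw [hAl, hgI] at hsq
  have hsum := fun s : ℝ => (hPV k N η 0 s hN).summable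
  have hone : gI (N : ℝ) η 0 (η i0) ≤
      ∑' n : ℤ, gI (N : ℝ) η 0 ((f i0 : ℝ) / q + η i0 + (l : ℝ) / q - n) := by
    have h1 := (hsum ((f i0 : ℝ) / q + η i0 + (l : ℝ) / q)).le_tsum n0
      (fun n _ => gI_nonneg _ _ _ _)
    refine le_trans (le_of_eq ?_) h1
    congr 1
    rw [hn0R]
    field_simp
    ring
  have hVF : Al q f (l : ℤ) * gI (N : ℝ) η 0 (η i0) ≤
      VF q f (N : ℝ) η 0 ((f i0 : ℝ) / q + η i0) := by
    unfold VF
    refine (mul_le_mul_of_nonneg_left hone (Al_nonneg _ _ _)).trans ?_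
    exact Finset.single_le_sum
      (f := fun l : ℕ => Al q f (l : ℤ) *
        ∑' n : ℤ, gI (N : ℝ) η 0 ((f i0 : ℝ) / q + η i0 + (l : ℝ) / q - n))
      (fun j _ => mul_nonneg (Al_nonneg _ _ _) (tsum_nonneg (fun n => gI_nonneg _ _ _ _)))
      (Finset.mem_range.mpr hl)
  have hfin : 2 * ((2 * Real.pi * (k : ℝ) ^ 2 + 2) * q * R / N) =
      2 * (2 * Real.pi * (k : ℝ) ^ 2 + 2) * q * R / N := by ring
  rw [hfin] at hsq
  linarith

end Pool.Agent.H82.LVP
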